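import Mathlib
import Pool.Agent.Helper33.OWN.Pad

set_option autoImplicit false
open MeasureTheory

namespace Pool.Agent.Results.MP_c83c77_co.EllipsoidsAllDimensions

open Pool.Agent.Helper30.Cov Pool.Agent.Helper33.OWN

/-- `s K + ℤ^d` meets every affine subspace of `ℝ^d` of dimension `d - i` -/
def Meets {d : ℕ} (K : Set (EuclideanSpace ℝ (Fin d))) (i : ℕ) (s : ℝ) : Prop :=
  ∀ A : AffineSubspace ℝ (EuclideanSpace ℝ (Fin d)), (A : Set (EuclideanSpace ℝ (Fin d))).Nonempty →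
    Module.finrank ℝ A.direction = d - i →
    ∃ x ∈ K, ∃ z : Fin d → ℤ, s • x + WithLp.toLp 2 (fun j => (z j : ℝ)) ∈ A

/-- the `i`-th covering minimum -/
noncomputable def covMin {d : ℕ} (K : Set (EuclideanSpace ℝ (Fin d))) (i : ℕ) : ℝ :=
  sInf {s : ℝ | 0 < s ∧ Meets K i s}

lemma prod_if' (N r : ℕ) (A B : ℝ) :
    ∏ i : Fin (4 * N + r), (if (i : ℕ) + 1 ≤ N then A else B) = A ^ N * B ^ (3 * N + r) := by
  rw [Fin.prod_univ_eq_prod_range (fun i : ℕ => if i + 1 ≤ N then A else B) (4 * N + r)]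
  have h : 4 * N + r = N + (3 * N + r) := by ring
  rw [h, Finset.prod_range_add]
  congr 1
  · rw [Finset.prod_congr rfl (fun i hi => if_pos (by
      have := Finset.mem_range.1 hi; omega)), Finset.prod_const, Finset.card_range]
  · rw [Finset.prod_congr rfl (fun i _ => if_neg (by omega)), Finset.prod_const,
      Finset.card_range]

lemma alg {ε ρ : ℝ} (hε : ε ≠ 0) (hρ : ρ ≠ 0) (A B : ℝ) (N r : ℕ) :
    ((ε / ρ) ^ N * (8 / ρ) ^ (3 * N + r)) * ((ρ ^ N * ρ ^ (3 * N)) * (ρ / ε) ^ r * (A ^ N * B ^ r)) =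
      (ε * 512 * A) ^ N * (8 / ε * B) ^ r := by
  have h1 : (8 / ρ) ^ (3 * N + r) = 512 ^ N / ρ ^ (3 * N) * (8 ^ r / ρ ^ r) := by
    rw [pow_add, div_pow, div_pow, pow_mul (8 : ℝ) 3 N]
    norm_num
  rw [h1, div_pow, div_pow, mul_pow, mul_pow, mul_pow, div_pow]
  field_simp

/-- For every `c > 0` and all large `d` there is an ellipsoid `K = T(B)` in `ℝ^d` with scales
`t_1, …, t_d > 0` such that `t_i K + ℤ^d` meets every affine subspace of dimension `d - i`
and `t_1 ⋯ t_d vol K ≤ c^d`; the same bound holds with the covering minima. -/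
theorem result (c : ℝ) (hc : 0 < c) :
    ∃ d₀ : ℕ, ∀ d : ℕ, d₀ ≤ d →
      ∃ (T : EuclideanSpace ℝ (Fin d) ≃L[ℝ] EuclideanSpace ℝ (Fin d))
        (K : Set (EuclideanSpace ℝ (Fin d))) (t : Fin d → ℝ),
        K = T '' Metric.closedBall 0 1 ∧
        (∀ i : Fin d, 0 < t i ∧ Meets K (i + 1) (t i)) ∧
        (∏ i : Fin d, t i) * (volume K).toReal ≤ c ^ d ∧
        (∏ i : Fin d, covMin K (i + 1))
          * (volume K).toReal ≤ c ^ d := by
  set c1 : ℝ := min c 1 with hc1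
  have hc10 : 0 < c1 := lt_min hc one_pos
  have hc11 : c1 ≤ 1 := min_le_right _ _
  have hc1c : c1 ≤ c := min_le_left _ _
  have hexp1 : 1 ≤ Real.exp (4 * Real.pi) := Real.one_le_exp (by positivity)
  set ε : ℝ := c1 ^ 4 / 2 * (512 * Real.exp (4 * Real.pi))⁻¹ with hεdef
  have hε : 0 < ε := by positivity
  have hε1 : ε ≤ 1 := by
    have h1 : c1 ^ 4 / 2 ≤ 1 := by
      have := pow_le_one₀ (n := 4) hc10.le hc11
      linarith
    have h2 : (512 * Real.exp (4 * Real.pi))⁻¹ ≤ 1 := by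
      apply inv_le_one_of_one_le₀
      nlinarith
    calc ε = c1 ^ 4 / 2 * (512 * Real.exp (4 * Real.pi))⁻¹ := rfl
      _ ≤ 1 * 1 := mul_le_mul h1 h2 (by positivity) zero_le_one
      _ = 1 := one_mul 1
  obtain ⟨N₀, hN₀⟩ := keyAll hε hε1
  set M : ℝ := (8 / ε * Real.exp Real.pi / c1) ^ 3 with hM
  have hbase : 1 ≤ 8 / ε * Real.exp Real.pi / c1 := by
    rw [le_div_iff₀ hc10, one_mul]
    have h1 : 1 ≤ 8 / ε := by rw [le_div_iff₀ hε]; linarith
    have h2 : 1 ≤ Real.exp Real.pi := Real.one_le_exp Real.pi_pos.le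
    nlinarith
  obtain ⟨N₁, hN₁⟩ := pow_unbounded_of_one_lt M (by norm_num : (1 : ℝ) < 2)
  refine ⟨4 * (N₀ + N₁ + 1), fun d hd => ?_⟩
  obtain ⟨N, r, hr, rfl⟩ : ∃ N r : ℕ, r ≤ 3 ∧ d = 4 * N + r :=
    ⟨d / 4, d % 4, by omega, by omega⟩
  have hNN₀ : N₀ ≤ N := by omega
  have hNN₁ : N₁ ≤ N := by omega
  obtain ⟨p, hFact, hN, ρ, hρ8, hρn, i0, a, ha, hth8, hthW⟩ := hN₀ N hNN₀
  have hρ0 : 0 < ρ := by linarith
  have hp0 : (0 : ℝ) < p := by rw [← hρn]; positivity
  set L : ℝ := ρ / ε with hLdef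
  have hL : 0 < L := by positivity
  set R : ℝ := Real.sqrt ((4 * N + r : ℕ) : ℝ) with hR
  have hdpos : (0 : ℝ) < ((4 * N + r : ℕ) : ℝ) := by
    have : 0 < 4 * N + r := by omega
    exact_mod_cast this
  have hR0 : 0 < R := Real.sqrt_pos.2 hdpos
  -- the ellipsoid
  set T : EuclideanSpace ℝ (Fin (4 * N + r)) ≃L[ℝ] EuclideanSpace ℝ (Fin (4 * N + r)) :=
    ((LinearEquiv.smulOfNeZero ℝ (E (4 * N + r)) R hR0.ne').trans
      (TT i0 a r hL.ne')).toContinuousLinearEquiv with hT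
  have hTapp : ∀ v, T v = TT i0 a r hL.ne' (R • v) := fun v => rfl
  have hKeq : T '' Metric.closedBall 0 1 =
      TT i0 a r hL.ne' '' Metric.closedBall (0 : E (4 * N + r)) R := by
    ext x
    constructor
    · rintro ⟨v, hv, rfl⟩
      refine ⟨R • v, ?_, (hTapp v).symm⟩
      rw [Metric.mem_closedBall, dist_zero_right] at hv ⊢
      rw [norm_smul, Real.norm_of_nonneg hR0.le]
      nlinarith
    · rintro ⟨v, hv, rfl⟩
      refine ⟨R⁻¹ • v, ?_, ?_⟩
      · rw [Metric.mem_closedBall, dist_zero_right] at hv ⊢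
        rw [norm_smul, norm_inv, Real.norm_of_nonneg hR0.le, inv_mul_le_iff₀ hR0, mul_one]
        exact hv
      · rw [hTapp, smul_smul, mul_inv_cancel₀ hR0.ne', one_smul]
  set K : Set (EuclideanSpace ℝ (Fin (4 * N + r))) := T '' Metric.closedBall 0 1 with hK
  set t : Fin (4 * N + r) → ℝ := fun i => if (i : ℕ) + 1 ≤ N then ε / ρ else 8 / ρ with ht
  have ht0 : ∀ i, 0 < t i := by
    intro i
    rw [ht]
    dsimp only
    split_ifs <;> positivity
  have htcov : ∀ i : Fin (4 * N + r),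
      ∀ A : AffineSubspace ℝ (EuclideanSpace ℝ (Fin (4 * N + r))),
        (A : Set (EuclideanSpace ℝ (Fin (4 * N + r)))).Nonempty →
        Module.finrank ℝ A.direction = (4 * N + r) - (i.val + 1) →
        ∃ x ∈ K, ∃ z : Fin (4 * N + r) → ℤ,
          t i • x + WithLp.toLp 2 (fun j => (z j : ℝ)) ∈ A := by
    intro i A hA hAd
    rw [hKeq]
    by_cases hi : (i : ℕ) + 1 ≤ N
    · have hti : t i = ε / ρ := by rw [ht]; exact if_pos hi
      rw [hti]
      refine cov_pad i0 a ha r hL (by positivity) ?_ i i.2 (fun W hW => ?_) A hA hAd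
      · rw [hLdef]
        apply le_of_eq
        field_simp
      · refine hthW W ?_
        rw [hW]
        have := min_le_left (i : ℕ) (4 * N - 1)
        omega
    · have hti : t i = 8 / ρ := by rw [ht]; exact if_neg hi
      rw [hti]
      refine cov_pad i0 a ha r hL (by positivity) ?_ i i.2 (fun W _ => ?_) A hA hAd
      · rw [hLdef]
        have : 8 / ρ * (ρ / ε) = 8 / ε := by field_simp
        rw [this, le_div_iff₀ hε]
        linarith
      · exact (thL_mono (La p a) le_top (by positivity)).trans hth8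
  have hvol : (volume K).toReal ≤ p * L ^ r * Real.exp (Real.pi * (4 * N + r : ℕ)) := by
    rw [hKeq]
    exact vol_TT i0 a r hL
  have hprod : ∏ i, t i = (ε / ρ) ^ N * (8 / ρ) ^ (3 * N + r) := prod_if' N r _ _
  have hbound : (∏ i, t i) * (volume K).toReal ≤ c1 ^ (4 * N + r) := by
    have hexp : Real.exp (Real.pi * (4 * N + r : ℕ)) =
        Real.exp (4 * Real.pi) ^ N * Real.exp Real.pi ^ r := by
      rw [← Real.exp_nat_mul, ← Real.exp_nat_mul, ← Real.exp_add]
      congr 1; push_cast; ring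
    have e2 : (p : ℝ) = ρ ^ N * ρ ^ (3 * N) := by
      rw [← hρn, ← pow_add]; congr 1; ring
    have h1 : (∏ i, t i) * (volume K).toReal ≤
        (ε * 512 * Real.exp (4 * Real.pi)) ^ N * (8 / ε * Real.exp Real.pi) ^ r := by
      calc (∏ i, t i) * (volume K).toReal ≤
          ((ε / ρ) ^ N * (8 / ρ) ^ (3 * N + r)) *
            (p * L ^ r * Real.exp (Real.pi * (4 * N + r : ℕ))) := by
            rw [hprod]
            exact mul_le_mul_of_nonneg_left hvol (by positivity)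
        _ = (ε * 512 * Real.exp (4 * Real.pi)) ^ N * (8 / ε * Real.exp Real.pi) ^ r := by
            rw [hexp, e2, hLdef]
            exact alg hε.ne' hρ0.ne' _ _ N r
    have h2 : ε * 512 * Real.exp (4 * Real.pi) = c1 ^ 4 / 2 := by
      rw [hεdef]
      field_simp
    have h3 : (8 / ε * Real.exp Real.pi) ^ r = (8 / ε * Real.exp Real.pi / c1) ^ r * c1 ^ r := by
      rw [← mul_pow]; congr 1; field_simp
    have h4 : (8 / ε * Real.exp Real.pi / c1) ^ r ≤ M :=
      pow_le_pow_right₀ hbase hr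
    have h5 : M ≤ 2 ^ N := hN₁.le.trans (pow_le_pow_right₀ (by norm_num) hNN₁)
    calc (∏ i, t i) * (volume K).toReal ≤ (c1 ^ 4 / 2) ^ N *
          ((8 / ε * Real.exp Real.pi / c1) ^ r * c1 ^ r) := by
          rw [← h2, ← h3]; exact h1
      _ ≤ (c1 ^ 4 / 2) ^ N * (2 ^ N * c1 ^ r) := by
          apply mul_le_mul_of_nonneg_left _ (by positivity)
          exact mul_le_mul_of_nonneg_right (h4.trans h5) (by positivity)
      _ = c1 ^ (4 * N + r) := by
          rw [div_pow, pow_add, pow_mul]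
          field_simp
  have hc1d : c1 ^ (4 * N + r) ≤ c ^ (4 * N + r) := pow_le_pow_left₀ hc10.le hc1c _
  have htm : ∀ i : Fin (4 * N + r), Meets K (i + 1) (t i) := fun i A hA hAd =>
    htcov i A hA hAd
  refine ⟨T, K, t, hK, fun i => ⟨ht0 i, htm i⟩, hbound.trans hc1d, ?_⟩
  refine le_trans ?_ (hbound.trans hc1d)
  refine mul_le_mul_of_nonneg_right ?_ ENNReal.toReal_nonneg
  refine Finset.prod_le_prod (fun i _ => Real.sInf_nonneg (fun μ hμ => hμ.1.le)) (fun i _ => ?_)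
  exact csInf_le ⟨0, fun μ hμ => hμ.1.le⟩ ⟨ht0 i, htm i⟩

end Pool.Agent.Results.MP_c83c77_co.EllipsoidsAllDimensions
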